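import Pool.Agent.H20.LIM.Targets

/-!
# Zeros and zero free part of an analytic function, module FAC
-/

set_option autoImplicit false

open Complex MeasureTheory Set Filter Topology Metric

namespace Pool.Agent.H2.LIM

open Pool.Agent.H20.LIM

theorem pf_fac (hZF : T_ZF) (hBC : T_BC) : T_FAC := by
  intro r0 r1 A hr0 hr01 hA
  obtain ⟨r', hr'⟩ : ∃ r' : ℝ, r' = (r0 + r1) / 2 := ⟨_, rfl⟩
  obtain ⟨r2, hr2⟩ : ∃ r2 : ℝ, r2 = (r' + r1) / 2 := ⟨_, rfl⟩
  have h1 : r0 < r' := by rw [hr']; linarith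
  have h2 : r' < r2 := by rw [hr2, hr']; linarith
  have h3 : r2 < r1 := by rw [hr2, hr']; linarith
  have hr'0 : 0 < r' := hr0.trans h1
  have hr20 : 0 < r2 := hr'0.trans h2
  have hr10 : 0 < r1 := hr20.trans h3
  obtain ⟨C0, hC0, hBC'⟩ := hBC r' r2 hr'0 h2
  have hlog : 0 < Real.log (r1 / r2) := Real.log_pos (by rw [one_lt_div hr20]; exact h3)
  obtain ⟨C1, hC1⟩ : ∃ C1 : ℝ, C1 = 2 * A / Real.log (r1 / r2) := ⟨_, rfl⟩
  obtain ⟨L1, hL1⟩ : ∃ L1 : ℝ, L1 = |Real.log (r1 - r2)| := ⟨_, rfl⟩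
  obtain ⟨L2, hL2⟩ : ∃ L2 : ℝ, L2 = Real.log (max 1 r2) := ⟨_, rfl⟩
  have hC1p : 0 < C1 := by rw [hC1]; positivity
  have hL1p : 0 ≤ L1 := by rw [hL1]; positivity
  have hL2p : 0 ≤ L2 := by rw [hL2]; exact Real.log_nonneg (le_max_left _ _)
  obtain ⟨C2, hC2⟩ : ∃ C2 : ℝ, C2 = A + C1 * L1 + C1 * L2 + 1 := ⟨_, rfl⟩
  have hC2p : 1 ≤ C2 := by
    rw [hC2]
    have := mul_nonneg hC1p.le hL1p
    have := mul_nonneg hC1p.le hL2p
    linarith
  refine ⟨max C1 (C0 * C2), lt_max_of_lt_left hC1p, ?_⟩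
  intro c h Λ hΛ han hup hlo
  have hΛ0 : 0 < Λ := by linarith
  obtain ⟨n, ζ, k, hn, hζ, hk, hk0, hhk⟩ := hZF c r2 r1 (A * Λ) h hr20 h3 (by positivity) han hup hlo
  have hn' : (n : ℝ) ≤ C1 * Λ := by
    refine hn.trans (le_of_eq ?_)
    rw [hC1]; ring
  have hnL1 : n * L1 ≤ C1 * L1 * Λ :=
    (mul_le_mul_of_nonneg_right hn' hL1p).trans (le_of_eq (by ring))
  have hnL2 : n * L2 ≤ C1 * L2 * Λ :=
    (mul_le_mul_of_nonneg_right hn' hL2p).trans (le_of_eq (by ring))
  have hC2Λ : C2 * Λ = A * Λ + C1 * L1 * Λ + C1 * L2 * Λ + Λ := by rw [hC2]; ring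
  have hd : 0 < r1 - r2 := by linarith
  -- upper bound for `k`
  have hprodlow : ∀ z, dist z c = r1 → Real.exp (-(n * L1)) ≤ ‖∏ j, (z - ζ j)‖ := by
    intro z hz
    rw [norm_prod]
    have h4 : ∀ j ∈ Finset.univ, Real.exp (-L1) ≤ ‖z - ζ j‖ := by
      intro j _
      have h5 : r1 - r2 ≤ ‖z - ζ j‖ := by
        have h6 : dist z c ≤ dist z (ζ j) + dist (ζ j) c := dist_triangle _ _ _
        have h7 : dist (ζ j) c ≤ r2 := hζ j
        rw [hz, dist_eq_norm z (ζ j)] at h6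
        linarith
      refine le_trans ?_ h5
      rw [← Real.le_log_iff_exp_le hd, hL1]
      exact neg_abs_le _
    calc Real.exp (-(n * L1)) = ∏ _j : Fin n, Real.exp (-L1) := by
          rw [Finset.prod_const, Finset.card_univ, Fintype.card_fin, ← Real.exp_nat_mul]
          congr 1; ring
      _ ≤ ∏ j, ‖z - ζ j‖ := Finset.prod_le_prod (fun _ _ => (Real.exp_pos _).le) h4
  have hkup : ∀ z ∈ closedBall c r1, ‖k z‖ ≤ Real.exp (C2 * Λ) := by
    intro z hz
    have hdc : DiffContOnCl ℂ k (ball c r1) := by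
      apply DifferentiableOn.diffContOnCl
      rw [closure_ball c hr10.ne']
      exact fun w hw => (hk w hw).differentiableAt.differentiableWithinAt
    refine Complex.norm_le_of_forall_mem_frontier_norm_le isBounded_ball hdc ?_
      (by rw [closure_ball c hr10.ne']; exact hz)
    intro w hw
    rw [frontier_ball c hr10.ne'] at hw
    have hw' : dist w c = r1 := hw
    have hw2 : w ∈ closedBall c r1 := by rw [mem_closedBall]; exact hw'.le
    have h8 := hup w hw2
    rw [hhk w hw2, norm_mul] at h8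
    have h9 := hprodlow w hw'
    have h10 : Real.exp (-(n * L1)) * ‖k w‖ ≤ Real.exp (A * Λ) :=
      (mul_le_mul_of_nonneg_right h9 (norm_nonneg _)).trans h8
    have h11 : ‖k w‖ ≤ Real.exp (A * Λ + n * L1) := by
      rw [Real.exp_neg, inv_mul_le_iff₀ (Real.exp_pos _)] at h10
      rw [Real.exp_add, mul_comm]
      exact h10
    refine h11.trans (Real.exp_le_exp.2 ?_)
    have := mul_nonneg (mul_nonneg hC1p.le hL2p) hΛ0.le
    linarith
  -- lower bound for `k c`
  have hcc : c ∈ closedBall c r1 := mem_closedBall_self hr10.le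
  have hklo : Real.exp (-(C2 * Λ)) ≤ ‖k c‖ := by
    have h12 : ‖∏ j, (c - ζ j)‖ ≤ Real.exp (n * L2) := by
      rw [norm_prod]
      have h4 : ∀ j ∈ Finset.univ, ‖c - ζ j‖ ≤ Real.exp L2 := by
        intro j _
        rw [hL2, Real.exp_log (lt_of_lt_of_le one_pos (le_max_left _ _))]
        have h7 : dist (ζ j) c ≤ r2 := hζ j
        rw [dist_comm, dist_eq_norm] at h7
        exact h7.trans (le_max_right _ _)
      calc ∏ j, ‖c - ζ j‖ ≤ ∏ _j : Fin n, Real.exp L2 :=
            Finset.prod_le_prod (fun _ _ => norm_nonneg _) h4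
        _ = Real.exp (n * L2) := by
          rw [Finset.prod_const, Finset.card_univ, Fintype.card_fin, ← Real.exp_nat_mul]
    rw [hhk c hcc, norm_mul] at hlo
    have h13 : Real.exp (-(A * Λ)) ≤ Real.exp (n * L2) * ‖k c‖ :=
      hlo.trans (mul_le_mul_of_nonneg_right h12 (norm_nonneg _))
    have h14 : Real.exp (-(A * Λ) - n * L2) ≤ ‖k c‖ := by
      rw [Real.exp_sub, div_le_iff₀ (Real.exp_pos _), mul_comm ‖k c‖]
      exact h13
    refine le_trans (Real.exp_le_exp.2 ?_) h14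
    have := mul_nonneg (mul_nonneg hC1p.le hL1p) hΛ0.le
    linarith
  have hsub : ball c r2 ⊆ closedBall c r1 := fun z hz => by
    rw [mem_ball] at hz
    rw [mem_closedBall]
    linarith
  have hsub2 : ball c r2 ⊆ closedBall c r2 := ball_subset_closedBall
  have hB1 : 1 ≤ C2 * Λ := one_le_mul_of_one_le_of_one_le hC2p hΛ
  obtain ⟨g, hg, hgb, hgl⟩ := hBC' c k (C2 * Λ) hB1
    (fun w hw => (hk w (hsub hw)).differentiableAt.differentiableWithinAt)
    (fun z hz => ⟨hk0 z (hsub2 hz), hkup z (hsub hz)⟩) hklo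
  refine ⟨n, ζ, fun z => g z / Λ, hn'.trans (mul_le_mul_of_nonneg_right (le_max_left _ _) hΛ0.le),
    fun j => ?_, ?_, ?_, ?_⟩
  · have h7 : dist (ζ j) c ≤ r2 := hζ j
    rw [mem_closedBall]
    linarith
  · rw [← hr']
    exact hg.div_const _
  · rw [← hr']
    intro z hz
    rw [norm_div, Complex.norm_real, Real.norm_eq_abs, abs_of_pos hΛ0, div_le_iff₀ hΛ0]
    refine (hgb z hz).trans ?_
    rw [← mul_assoc]
    exact mul_le_mul_of_nonneg_right (le_max_right _ _) hΛ0.le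
  · intro z hz hz0
    have hz1 : z ∈ closedBall c r1 := by
      rw [mem_closedBall] at hz ⊢
      linarith
    have hz2 : z ∈ ball c r' := by
      rw [mem_closedBall] at hz
      rw [mem_ball]
      linarith
    have h15 := hhk z hz1
    rw [h15] at hz0
    have hp0 : (∏ j, (z - ζ j)) ≠ 0 := left_ne_zero_of_mul hz0
    have hkz : k z ≠ 0 := right_ne_zero_of_mul hz0
    have hf0 : ∀ j ∈ Finset.univ, ‖z - ζ j‖ ≠ 0 := by
      intro j hj
      rw [norm_ne_zero_iff]
      exact (Finset.prod_ne_zero_iff.1 hp0) j hj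
    have h16 : Real.log ‖h z‖ = (∑ j, Real.log ‖z - ζ j‖) + Real.log ‖k z‖ := by
      rw [h15, norm_mul, Real.log_mul (norm_ne_zero_iff.2 hp0) (norm_ne_zero_iff.2 hkz), norm_prod,
        Real.log_prod hf0]
    rw [h16, hgl z hz2, add_div]
    congr 1
    rw [Complex.div_ofReal_re]

end Pool.Agent.H2.LIM
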