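import Pool.Agent.H20.LIM.Targets

/-!
# The size of the logarithm of an analytic function, module LJ
-/

set_option autoImplicit false

open Complex MeasureTheory Set Filter Topology Metric

namespace Pool.Agent.H2.LIM

open Pool.Agent.H20.LIM

theorem pf_lj (hSM : T_SM) : T_LJ := by
  intro h c r A hr hA han hup hlo
  have hc0 : h c ≠ 0 := by
    intro h0
    rw [h0, norm_zero] at hlo
    exact absurd hlo (not_le.2 (Real.exp_pos _))
  obtain ⟨hint, hsub⟩ := hSM h c r hr han hc0
  refine ⟨hint, ?_⟩
  set f : ℂ → ℝ := fun z => Real.log ‖h z‖ with hf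
  have hvol : volume.real (closedBall c r) = Real.pi * r ^ 2 := by
    rw [Measure.real, Complex.volume_closedBall]
    rw [ENNReal.toReal_mul, ENNReal.toReal_pow, ENNReal.toReal_ofReal hr.le]
    simp [mul_comm]
  have hvolb : volume.real (ball c r) = Real.pi * r ^ 2 := by
    rw [Measure.real, Complex.volume_ball]
    rw [ENNReal.toReal_mul, ENNReal.toReal_pow, ENNReal.toReal_ofReal hr.le]
    simp [mul_comm]
  have hpos : 0 < Real.pi * r ^ 2 := by positivity
  have hint2 : ∫ z in ball c r, f z = ∫ z in closedBall c r, f z := by
    apply setIntegral_congr_set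
    exact ae_eq_of_subset_of_measure_ge ball_subset_closedBall
      (by rw [Complex.volume_closedBall, Complex.volume_ball])
      (measurableSet_ball (x := c) (ε := r)).nullMeasurableSet
      (by rw [Complex.volume_closedBall]; exact ENNReal.mul_ne_top (by simp) (by simp))
  have hlow : -(A * (Real.pi * r ^ 2)) ≤ ∫ z in closedBall c r, f z := by
    have h1 : -A ≤ Real.log ‖h c‖ := by
      rw [Real.le_log_iff_exp_le (norm_pos_iff.2 hc0)]
      exact hlo
    have h2 : -A ≤ (Real.pi * r ^ 2)⁻¹ * ∫ z in closedBall c r, f z := by
      refine h1.trans (hsub.trans (le_of_eq ?_))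
      rw [av, setAverage_eq, hvolb, smul_eq_mul, hint2]
    rw [← div_eq_inv_mul, le_div_iff₀ hpos] at h2
    linarith
  have hfA : ∀ z ∈ closedBall c r, f z ≤ A := by
    intro z hz
    by_cases h0 : h z = 0
    · simp only [hf, h0, norm_zero, Real.log_zero]
      exact hA
    · rw [hf]
      simp only
      rw [Real.log_le_iff_le_exp (norm_pos_iff.2 h0)]
      exact hup z hz
  have hmain : ∫ z in closedBall c r, ‖f z‖ ≤ 3 * Real.pi * r ^ 2 * A := by
    have hconst : IntegrableOn (fun _ : ℂ => 2 * A) (closedBall c r) := by
      apply integrableOn_const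
      · rw [Complex.volume_closedBall]
        exact ENNReal.mul_ne_top (by simp) (by simp)
      · exact enorm_ne_top
    have h3 : ∫ z in closedBall c r, ‖f z‖ ≤ ∫ z in closedBall c r, (2 * A - f z) := by
      refine setIntegral_mono_on hint.norm (hconst.sub hint) measurableSet_closedBall ?_
      intro z hz
      have h4 := hfA z hz
      rw [Real.norm_eq_abs, abs_le]
      constructor <;> linarith
    have h5 : ∫ z in closedBall c r, (2 * A - f z) =
        2 * A * (Real.pi * r ^ 2) - ∫ z in closedBall c r, f z := by
      rw [integral_sub hconst hint, setIntegral_const, hvol, smul_eq_mul]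
      ring
    rw [h5] at h3
    linarith
  rw [← ofReal_integral_norm_eq_lintegral_enorm hint]
  exact ENNReal.ofReal_le_ofReal hmain

end Pool.Agent.H2.LIM
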